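import Pool.Agent.Y132.AF.Defs
import Pool.Agent.Y132.AH.GDefs

/-!
# Separated slopes: definitions
-/

open CategoryTheory AlgebraicGeometry

universe u

namespace Pool.Agent.R929.AF

open Pool.Agent.H914 Pool.Agent.H914.VarClass Pool.Agent.H914.VarClass.Obj
  Pool.Agent.H914.WeilCohomology Pool.Agent.TH125.Gal Pool.Agent.Y132.AF Pool.Agent.Y132.AH

variable {k : Type u} [Field k] {𝒱 : VarClass k} {ops : CycleOps 𝒱}
  {W : WeilCohomology.{u, 0} ops} {Γ : Type} [Group Γ]

/-- The slopes of `X` and `Z` are separated: there are an additive function `ν` on the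
multiplicative group of the coefficient field (the extension of a `p`-adic valuation to `ℚ̄_ℓ`), an
element `g` of `Γ` (a Frobenius element) with `ν (χ g) = 1` and a number `N` such that the cohomology
algebra of `Z` is generated by stable subspaces on each of which any two slopes of `g` differ by at
most `N`, and `g` has a slope greater than `(dim X + N) / 2` on the transcendental cohomology of
`X`. (If `Z` is a product of curves or an abelian variety then `N = 1` is possible.) -/
def Separated (χ : Γ →* W.Kˣ) (X Z : GVar W Γ) : Prop :=
  ∃ (ν : Val W.K) (g : Γ) (N : ℚ), val ν (χ g) = 1 ∧ SpreadGen ν Z.act g N ∧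
    HighOn ν X.act g (transcendental W X.X) X.X.dim N

end Pool.Agent.R929.AF
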