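import Mathlib

/-!
# Lists with few entries
-/

namespace Pool.Agent.R929.AF

theorem one_add_sum_le {ι : Type*} (s : Finset ι) (a : ι → ℕ) :
    1 + ∑ i ∈ s, a i ≤ ∏ i ∈ s, (a i + 1) := by
  classical
  induction s using Finset.induction_on with
  | empty => simp
  | insert i s hi ih =>
    rw [Finset.sum_insert hi, Finset.prod_insert hi]
    have h1 : 1 ≤ ∏ i ∈ s, (a i + 1) := le_trans (by omega) ih
    nlinarith

theorem length_lt {ι : Type*} [DecidableEq ι] (L : List ι) :
    L.length < ∏ i ∈ L.toFinset, (L.count i + 1) := by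
  have h1 := one_add_sum_le L.toFinset fun i => L.count i
  rw [List.sum_toFinset_count_eq_length] at h1
  omega

theorem finite_lists {ι : Type*} (B : Finset ι) (N : ℕ) :
    {L : List ι | (∀ i ∈ L, i ∈ B) ∧ L.length < N}.Finite := by
  have h1 : {L : List B | L.length < N}.Finite := List.finite_length_lt B N
  refine (h1.image (List.map Subtype.val)).subset ?_
  rintro L ⟨hL, hN⟩
  refine ⟨L.attach.map fun x => ⟨x.1, hL x.1 x.2⟩, ?_, ?_⟩
  · simpa using hN
  · rw [List.map_map]
    exact List.attach_map_subtype_val L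

end Pool.Agent.R929.AF
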