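import Pool.Agent.Y132.AH.MT
import Pool.Agent.R929.AF.Defs
import Pool.Agent.R929.AF.Lists

/-!
# Finitely many products suffice
-/

open CategoryTheory AlgebraicGeometry Finset Function

set_option linter.unusedSectionVars false

universe u

namespace Pool.Agent.R929.AF

open Pool.Agent.H914 Pool.Agent.H914.VarClass Pool.Agent.H914.VarClass.Obj
  Pool.Agent.H914.WeilCohomology Pool.Agent.H281R3.HT Pool.Agent.W552 Pool.Agent.TH125.Gal
  Pool.Agent.Y132.AF Pool.Agent.Y132.AH

variable {k : Type u} [Field k] {𝒱 : VarClass k} {ops : CycleOps 𝒱}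
  {W : WeilCohomology.{u, 0} ops} {Γ : Type} [Group Γ] {χ : Γ →* W.Kˣ} {ι : Type}

/-- The algebraic classes are a system of classes. -/
def algSys (W : WeilCohomology.{u, 0} ops) : ClassSystem W where
  C := algSpan W
  alg_le _ := le_rfl
  mul_mem := algSpan_mul
  map_mem f _ hb := algSpan_map f hb
  push_mem f _ ha := algSpan_push f ha

theorem classConj_alg {Y : GVar W Γ} : ClassConj χ (algSys W) Y ↔ TateConjecture χ Y :=
  ⟨fun h j c hc hΔ => algSpan_gr (h j c hc hΔ) hc,
    fun h j c hc hΔ => Submodule.span_mono (Set.subset_iUnion _ j) (h j c hc hΔ)⟩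

theorem not_stableBound {X Z : GVar W Γ} (h : Separated χ X Z) : ¬StableBound χ X Z := by
  intro hB
  obtain ⟨ν, g, N, hν, ⟨𝒰, h𝒰, hsp⟩, a, x, hxT, hx0, hxa, hlt⟩ := h
  set lam : W.Kˣ := a * a * (χ g ^ X.X.dim)⁻¹ with hlam
  obtain ⟨U, hU, z, hz, w, hw, hz0, hw0, β, hzβ, hwβ⟩ := hB 𝒰 ⟨h𝒰.stable, h𝒰.gen⟩ g a a lam
    x hxT x hxT hx0 hx0 hxa hxa (by
      rw [hlam, Units.val_mul, Units.val_mul, Units.val_inv_eq_inv_val, Units.val_pow_eq_pow_val]
      have h1 : ((χ g : W.Kˣ) : W.K) ^ X.X.dim ≠ 0 := pow_ne_zero _ (Units.ne_zero _)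
      field_simp)
  have hβ0 : β ≠ 0 := by
    rintro rfl
    rw [zero_smul] at hwβ
    exact hw0 ((Z.act g).injective (by rw [map_zero]; exact hwβ))
  have h1 := hsp U hU (lam * Units.mk0 β hβ0) (Units.mk0 β hβ0) z w hz hw hz0 hw0
    (by rw [Units.val_mul]; exact hzβ) hwβ
  rw [val_mul'] at h1
  have h2 : val ν lam = 2 * val ν a - X.X.dim := by
    have h3 : lam * χ g ^ X.X.dim = a * a := by rw [hlam]; simp
    have h4 := congrArg (val ν) h3
    rw [val_mul' ν lam, val_mul' ν a a, val_pow, hν] at h4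
    linarith
  rw [h2] at h1
  linarith

/-- small lists have few entries -/
theorem small_length [DecidableEq ι] {X : ι → GVar W Γ} {Z : GVar W Γ} {B : Finset ι}
    {L : List ι} (h : SmallList χ X Z B L) : L.length < totRank Z := by
  obtain ⟨m, -, h1, -⟩ := h.degree
  refine lt_of_lt_of_le (length_lt L) (h1.trans ?_)
  exact Submodule.finrank_le _

/-- **Finitely many products suffice.** -/
theorem finite_tate [IsAlgClosed W.K] [DecidableEq ι] {X : ι → GVar W Γ} {Z : GVar W Γ}
    (hX : AdFamily χ X) (hZ : GradedVar Z) :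
    ∃ (B : Finset ι) (𝒮 : Finset (List ι)), ∑ i ∈ B, trRank (X i) ≤ totRank Z ∧
      (∀ i ∈ B, ¬Separated χ (X i) Z) ∧
      (∀ L ∈ 𝒮, SmallList χ X Z B L ∧ L.length < totRank Z) ∧
      (∀ (L : List ι) (Y : GVar W Γ), IsTower X Z L Y →
        (TateConjecture χ Y ↔ ∀ L' ∈ 𝒮, L'.Sublist L → ∀ Y' : GVar W Γ,
          IsTower X Z L' Y' → TateConjecture χ Y')) := by
  classical
  obtain ⟨B, hB, hBa, hiff⟩ := class_iff' (algSys W) hX hZ
  have hfin : {L : List ι | SmallList χ X Z B L}.Finite :=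
    (finite_lists B (totRank Z)).subset fun L hL => ⟨hL.mem, small_length hL⟩
  refine ⟨B, hfin.toFinset, hB, fun i hi h => not_stableBound h (hBa i hi), fun L hL => ?_,
    fun L Y hY => ?_⟩
  · have h1 : SmallList χ X Z B L := by simpa using hL
    exact ⟨h1, small_length h1⟩
  · rw [← classConj_alg, hiff L Y hY]
    constructor
    · intro h L' hL' hsub Y' hY'
      exact classConj_alg.1 (h L' Y' hsub (by simpa using hL') hY')
    · intro h L' Y' hsub hsmall hY'
      exact classConj_alg.2 (h L' (by simpa using hsmall) hsub Y' hY')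

end Pool.Agent.R929.AF
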