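import Pool.Agent.Y132.AH.MT
import Pool.Agent.R929.AF.Lists

/-!
# The Mumford-Tate conjecture: finitely many products suffice
-/

open CategoryTheory AlgebraicGeometry Finset Function

set_option linter.unusedSectionVars false

universe u

namespace Pool.Agent.R929.AF

open Pool.Agent.H914 Pool.Agent.H914.VarClass Pool.Agent.H914.VarClass.Obj
  Pool.Agent.H914.WeilCohomology Pool.Agent.H281R3.HT Pool.Agent.W552 Pool.Agent.TH125.Gal
  Pool.Agent.Y132.AF Pool.Agent.Y132.AH

variable {k : Type u} [Field k] {𝒱 : VarClass k} {ops : CycleOps 𝒱}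
  {W : WeilCohomology.{u, 0} ops} {Γ : Type} [Group Γ] {ι : Type}

/-- small lists have few entries -/
theorem smallDim_length [DecidableEq ι] {X : ι → 𝒱.Obj} {Z : 𝒱.Obj} {B : Finset ι}
    {L : List ι} (h : SmallDim W X Z B L) : L.length < totDim W Z := by
  obtain ⟨m, -, h1, -⟩ := h.degree
  refine lt_of_lt_of_le (length_lt L) (h1.trans ?_)
  exact Submodule.finrank_le _

/-- **Finitely many products suffice**, the Mumford-Tate conjecture. -/
theorem finite_mt (G : GaloisData W Γ) (Ψ : HodgeData W) [IsAlgClosed W.K] [DecidableEq ι]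
    {X : ι → 𝒱.Obj} (Z : 𝒱.Obj) (hH : SpFamily Ψ X) (hG : BigFamily G X) :
    (∃ (B : Finset ι) (𝒮 : Finset (List ι)), ∑ i ∈ B, trDim W (X i) ≤ 2 * totDim W Z ∧
      (∀ i ∈ B, ¬(SlopeSep G (X i) Z ∧ TypeSep Ψ (X i) Z)) ∧
      (∀ L ∈ 𝒮, SmallDim W X Z B L ∧ L.length < totDim W Z) ∧
      ∀ L : List ι, MumfordTate Ψ G (prodList X Z L) ↔
        ∀ L' ∈ 𝒮, L'.Sublist L → MumfordTate Ψ G (prodList X Z L')) ∧
    ((∀ i, SlopeSep G (X i) Z ∧ TypeSep Ψ (X i) Z) → ∀ L : List ι,
      MumfordTateAll Ψ G (prodList X Z L) ↔ MumfordTateAll Ψ G Z) := by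
  classical
  refine ⟨?_, fun h L => mt_all G Ψ Z hH (bigFamily_ad G (spFamily_odd Ψ hH) hG)
    (fun i => (h i).1) (fun i => (h i).2) L⟩
  obtain ⟨B, hB, hBa, hiff⟩ := mt_iff' G Ψ Z hH hG
  have hfin : {L : List ι | SmallDim W X Z B L}.Finite :=
    (finite_lists B (totDim W Z)).subset fun L hL => ⟨hL.mem, smallDim_length hL⟩
  refine ⟨B, hfin.toFinset, hB, hBa, fun L hL => ?_, fun L => ?_⟩
  · have h1 : SmallDim W X Z B L := by simpa using hL
    exact ⟨h1, smallDim_length h1⟩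
  · rw [hiff L]
    constructor
    · intro h L' hL' hsub
      exact h L' hsub (by simpa using hL')
    · intro h L' hsub hsmall
      exact h L' (by simpa using hsmall) hsub

end Pool.Agent.R929.AF
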